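import Mathlib

namespace Pool.Agent.Results.MP_5b71d7_co.TwoDense

open Finset

/-- `F` is a union-closed family over `[n]`: all its members are nonempty, the whole set is a
member, and the union of two members is a member. -/
def IsUnionClosed {n : ℕ} (F : Finset (Finset (Fin n))) : Prop :=
  (∀ A ∈ F, A.Nonempty) ∧ (univ : Finset (Fin n)) ∈ F ∧ ∀ A ∈ F, ∀ B ∈ F, A ∪ B ∈ F

/-- The family of all nonempty subsets of `[n]`. -/
def allNonempty (n : ℕ) : Finset (Finset (Fin n)) :=
  univ.filter (fun A => A.Nonempty)

open Classical in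
/-- The closure of `F`: all nonempty sets `A` such that `F ∪ {A}` is union-closed. -/
noncomputable def closure {n : ℕ} (F : Finset (Finset (Fin n))) : Finset (Finset (Fin n)) :=
  (allNonempty n).filter (fun A => IsUnionClosed (insert A F))

/-- `F` is `k`-dense: the `k`-fold iterated closure is the family of all nonempty sets, and
no iterated closure with fewer than `k` steps is. -/
def IsKDense {n : ℕ} (k : ℕ) (F : Finset (Finset (Fin n))) : Prop :=
  closure^[k] F = allNonempty n ∧ ∀ j < k, closure^[j] F ≠ allNonempty n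

lemma mem_closure {n : ℕ} {F : Finset (Finset (Fin n))} {A : Finset (Fin n)} :
    A ∈ closure F ↔ A.Nonempty ∧ IsUnionClosed (insert A F) := by
  classical
  unfold closure allNonempty
  rw [mem_filter, mem_filter]
  simp

lemma key {n : ℕ} {F : Finset (Finset (Fin n))} (hF : IsUnionClosed F) (hd : IsKDense 2 F)
    {A B C : Finset (Fin n)} (hA : A ∈ F) (hB : B ∈ F) (hAB : A ≠ B) (hAC : A ⊆ C)
    (hBC : B ⊆ C) : C ∈ F := by
  classical
  have h2 : closure (closure F) = allNonempty n := hd.1
  have hFG : ∀ X ∈ F, X ∈ closure F := by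
    intro X hX
    rw [mem_closure, insert_eq_self.mpr hX]
    exact ⟨hF.1 X hX, hF⟩
  have hup : ∀ X ∈ closure F, ∀ Y, X ⊆ Y → Y ∈ closure F := by
    intro X hX Y hXY
    by_cases hne : X = Y
    · rw [← hne]; exact hX
    · obtain ⟨b, hb⟩ := (mem_closure.mp hX).1
      obtain ⟨c, hcY, hcX⟩ := Finset.exists_of_ssubset (hXY.ssubset_of_ne hne)
      have hcb : c ≠ b := fun h => hcX (h ▸ hb)
      have hmem : Y.erase b ∈ closure (closure F) := by
        rw [h2]
        unfold allNonempty
        rw [mem_filter]
        exact ⟨mem_univ _, ⟨c, mem_erase.mpr ⟨hcb, hcY⟩⟩⟩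
      have huc := (mem_closure.mp hmem).2.2.2 (Y.erase b) (mem_insert_self _ _) X
        (mem_insert_of_mem hX)
      have e : Y.erase b ∪ X = Y := by
        ext x
        rw [mem_union, mem_erase]
        constructor
        · rintro (h | h)
          · exact h.2
          · exact hXY h
        · intro h
          by_cases hxb : x = b
          · right; rw [hxb]; exact hb
          · left; exact ⟨hxb, h⟩
      rw [e, mem_insert] at huc
      rcases huc with h | h
      · exfalso
        have : b ∈ Y.erase b := by rw [← h]; exact hXY hb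
        exact (notMem_erase b Y) this
      · exact h
  have chain : ∀ X Y : Finset (Fin n), X ∈ F → Y ∈ F → X ⊂ Y → Y ⊆ C → C ∈ F := by
    intro X Y hX hY hXY hYC
    obtain ⟨x, hxY, hxX⟩ := Finset.exists_of_ssubset hXY
    have hmem : C.erase x ∈ closure F := by
      apply hup X (hFG X hX)
      intro y hy
      rw [mem_erase]
      exact ⟨fun h => hxX (h ▸ hy), hYC (hXY.1 hy)⟩
    have huc := (mem_closure.mp hmem).2.2.2 (C.erase x) (mem_insert_self _ _) Y
      (mem_insert_of_mem hY)
    have e : C.erase x ∪ Y = C := by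
      ext z
      rw [mem_union, mem_erase]
      constructor
      · rintro (h | h)
        · exact h.2
        · exact hYC h
      · intro h
        by_cases hzx : z = x
        · right; rw [hzx]; exact hxY
        · left; exact ⟨hzx, h⟩
    rw [e, mem_insert] at huc
    rcases huc with h | h
    · exfalso
      have : x ∈ C.erase x := by rw [← h]; exact hYC hxY
      exact (notMem_erase x C) this
    · exact h
  by_cases hsub : A ⊆ A ∪ B ∧ A ≠ A ∪ B
  · exact chain A (A ∪ B) hA (hF.2.2 A hA B hB) (hsub.1.ssubset_of_ne hsub.2)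
      (union_subset hAC hBC)
  · have hAeq : A = A ∪ B := by
      by_contra hne
      exact hsub ⟨subset_union_left, hne⟩
    have hBA : B ⊆ A := by rw [hAeq]; exact subset_union_right
    exact chain B A hB hA (hBA.ssubset_of_ne (Ne.symm hAB)) hAC

/-- Every `2`-dense union-closed family over `[n]` satisfies Frankl's condition: some element
lies in at least `⌊|F|/2⌋` members; in fact some element lies in more than half of them. -/
theorem result (n : ℕ) (hn : 1 ≤ n) (F : Finset (Finset (Fin n))) (hF : IsUnionClosed F)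
    (hd : IsKDense 2 F) :
    ∃ i : Fin n, F.card / 2 ≤ (F.filter (fun A => i ∈ A)).card ∧
      F.card < 2 * (F.filter (fun A => i ∈ A)).card := by
  classical
  have : Nonempty (Fin n) := ⟨⟨0, hn⟩⟩
  suffices h : ∃ i : Fin n, F.card < 2 * (F.filter (fun A => i ∈ A)).card by
    obtain ⟨i, hi⟩ := h
    exact ⟨i, by omega, hi⟩
  set W := F.filter (fun C => ∃ A ∈ F, A ⊂ C) with hW
  set M := F.filter (fun C => ¬ ∃ A ∈ F, A ⊂ C) with hM
  have hFcard : F.card = W.card + M.card := (card_filter_add_card_filter_not _).symm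
  have hWup : ∀ C ∈ W, ∀ D, C ⊆ D → D ∈ W := by
    intro C hC D hCD
    rw [hW, mem_filter] at hC ⊢
    obtain ⟨hCF, A, hA, hAC⟩ := hC
    exact ⟨key hF hd hA hCF hAC.ne (hAC.1.trans hCD) hCD, A, hA, lt_of_lt_of_le hAC hCD⟩
  -- a set outside `W` contains at most one member of `M`
  have huniq : ∀ A ∈ M, ∀ B ∈ M, ∀ D, A ⊆ D → B ⊆ D → D ∉ W → A = B := by
    intro A hA B hB D hAD hBD hD
    by_contra hne
    rw [hM, mem_filter] at hA hB
    have hDF := key hF hd hA.1 hB.1 hne hAD hBD
    apply hD
    rw [hW, mem_filter]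
    refine ⟨hDF, ?_⟩
    by_cases h : A = D
    · subst h
      exfalso
      exact hA.2 ⟨B, hB.1, hBD.ssubset_of_ne (Ne.symm hne)⟩
    · exact ⟨A, hA.1, hAD.ssubset_of_ne h⟩
  let E : Fin n → Finset (Finset (Fin n)) := fun i => W.filter (fun C => i ∈ C ∧ C.erase i ∉ W)
  have hE : ∀ i, 2 * (W.filter (fun C => i ∈ C)).card = W.card + (E i).card := by
    intro i
    have h1 : W.card = (W.filter (fun C => i ∈ C)).card + (W.filter (fun C => ¬ i ∈ C)).card :=
      (card_filter_add_card_filter_not _).symm
    have h2 : (W.filter (fun C => i ∈ C)).card =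
        ((W.filter (fun C => i ∈ C)).filter (fun C => C.erase i ∈ W)).card +
        ((W.filter (fun C => i ∈ C)).filter (fun C => ¬ C.erase i ∈ W)).card :=
      (card_filter_add_card_filter_not _).symm
    have h3 : ((W.filter (fun C => i ∈ C)).filter (fun C => ¬ C.erase i ∈ W)) = E i := by
      simp only [E, filter_filter]
    have h4 : ((W.filter (fun C => i ∈ C)).filter (fun C => C.erase i ∈ W)).card =
        (W.filter (fun C => ¬ i ∈ C)).card := by
      refine Finset.card_bij (fun C _ => C.erase i) ?_ ?_ ?_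
      · intro C hC
        rw [mem_filter, mem_filter] at hC
        rw [mem_filter]
        exact ⟨hC.2, notMem_erase i C⟩
      · intro C hC D hD h
        rw [mem_filter, mem_filter] at hC hD
        rw [← insert_erase hC.1.2, ← insert_erase hD.1.2, h]
      · intro C hC
        rw [mem_filter] at hC
        refine ⟨insert i C, ?_, erase_insert hC.2⟩
        rw [mem_filter, mem_filter, erase_insert hC.2]
        exact ⟨⟨hWup C hC.1 _ (subset_insert i C), mem_insert_self i C⟩, hC.1⟩
    rw [h3] at h2
    omega
  -- the boundary count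
  have hchoice : ∀ A : Finset (Fin n), ∃ (C : Finset (Fin n)) (i0 : Fin n),
      A ∈ M → A ≠ univ → (C ∈ W ∧ A ⊆ C ∧ i0 ∈ C ∧ i0 ∉ A ∧
        ∀ j ∈ C, j ∉ A → C.erase j ∉ W) := by
    intro A
    by_cases hA : A ∈ M ∧ A ≠ univ
    · have huniv : (univ : Finset (Fin n)) ∈ W.filter (fun C => A ⊆ C) := by
        rw [mem_filter, hW, mem_filter]
        rw [hM, mem_filter] at hA
        exact ⟨⟨hF.2.1, A, hA.1.1, (subset_univ A).ssubset_of_ne hA.2⟩, subset_univ A⟩
      obtain ⟨C, hC, hmin⟩ := Finset.exists_min_image (W.filter (fun C => A ⊆ C))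
        (fun C => C.card) ⟨_, huniv⟩
      rw [mem_filter] at hC
      have hAW : A ∉ W := by
        intro h
        rw [hM, mem_filter] at hA
        rw [hW, mem_filter] at h
        exact hA.1.2 h.2
      have hne : A ≠ C := fun h => hAW (h ▸ hC.1)
      obtain ⟨i0, hi0C, hi0A⟩ := Finset.exists_of_ssubset (hC.2.ssubset_of_ne hne)
      refine ⟨C, i0, fun _ _ => ⟨hC.1, hC.2, hi0C, hi0A, ?_⟩⟩
      intro j hjC hjA hjW
      have hlt : (C.erase j).card < C.card := card_erase_lt_of_mem hjC
      have := hmin (C.erase j) (by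
        rw [mem_filter]
        exact ⟨hjW, fun x hx => mem_erase.mpr ⟨fun h => hjA (h ▸ hx), hC.2 hx⟩⟩)
      omega
    · refine ⟨∅, Classical.arbitrary _, ?_⟩
      intro h1 h2
      exact absurd ⟨h1, h2⟩ hA
  choose c i0 hc using hchoice
  let φ : (Σ _ : Finset (Fin n), Fin n) → (Σ _ : Fin n, Finset (Fin n)) := fun p =>
    if p.2 ∈ c p.1 then ⟨p.2, c p.1⟩
    else if insert p.2 ((c p.1).erase (i0 p.1)) ∈ W then
      ⟨p.2, insert p.2 ((c p.1).erase (i0 p.1))⟩
    else ⟨i0 p.1, insert p.2 (c p.1)⟩
  have hφ : ∀ A ∈ M, ∀ j, j ∉ A → (φ ⟨A, j⟩).2 ∈ W ∧ (φ ⟨A, j⟩).1 ∈ (φ ⟨A, j⟩).2 ∧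
      (φ ⟨A, j⟩).2.erase (φ ⟨A, j⟩).1 ∉ W ∧ A ⊆ (φ ⟨A, j⟩).2.erase (φ ⟨A, j⟩).1 := by
    intro A hA j hj
    have hne : A ≠ univ := fun h => hj (h ▸ mem_univ j)
    obtain ⟨h1, h2, h3, h4, h5⟩ := hc A hA hne
    by_cases hjc : j ∈ c A
    · have e : φ ⟨A, j⟩ = ⟨j, c A⟩ := by simp only [φ, if_pos hjc]
      rw [e]
      refine ⟨h1, hjc, h5 j hjc hj, ?_⟩
      intro x hx
      have hxj : x ≠ j := fun h => hj (h ▸ hx)
      exact mem_erase.mpr ⟨hxj, h2 hx⟩
    · by_cases hins : insert j ((c A).erase (i0 A)) ∈ W
      · have e : φ ⟨A, j⟩ = ⟨j, insert j ((c A).erase (i0 A))⟩ := by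
          simp only [φ, if_neg hjc, if_pos hins]
        rw [e]
        have hj' : j ∉ (c A).erase (i0 A) := fun h => hjc (mem_of_mem_erase h)
        refine ⟨hins, mem_insert_self _ _, ?_, ?_⟩
        · simp only
          rw [erase_insert hj']
          exact h5 _ h3 h4
        · simp only
          rw [erase_insert hj']
          exact fun x hx => mem_erase.mpr ⟨fun h => h4 (h ▸ hx), h2 hx⟩
      · have e : φ ⟨A, j⟩ = ⟨i0 A, insert j (c A)⟩ := by
          simp only [φ, if_neg hjc, if_neg hins]
        rw [e]
        have hji : j ≠ i0 A := fun h => hjc (h ▸ h3)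
        have e2 : (insert j (c A)).erase (i0 A) = insert j ((c A).erase (i0 A)) :=
          erase_insert_of_ne hji
        refine ⟨hWup _ h1 _ (subset_insert _ _), mem_insert_of_mem h3, ?_, ?_⟩
        · simp only
          rw [e2]; exact hins
        · simp only
          rw [e2]
          exact fun x hx => mem_insert_of_mem (mem_erase.mpr ⟨fun h => h4 (h ▸ hx), h2 hx⟩)
  have hφinj : ∀ A ∈ M, ∀ j, j ∉ A → ∀ A' ∈ M, ∀ j', j' ∉ A' → φ ⟨A, j⟩ = φ ⟨A', j'⟩ →
      A = A' ∧ j = j' := by
    intro A hA j hj A' hA' j' hj' heq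
    have hAA : A = A' := by
      have p1 := hφ A hA j hj
      have p2 := hφ A' hA' j' hj'
      rw [← heq] at p2
      exact huniq A hA A' hA' _ p1.2.2.2 p2.2.2.2 p1.2.2.1
    subst hAA
    refine ⟨rfl, ?_⟩
    have hne : A ≠ univ := fun h => hj (h ▸ mem_univ j)
    obtain ⟨h1, h2, h3, h4, h5⟩ := hc A hA hne
    by_cases hjc : j ∈ c A
    · have e : φ ⟨A, j⟩ = ⟨j, c A⟩ := by simp only [φ, if_pos hjc]
      by_cases hjc' : j' ∈ c A
      · have e' : φ ⟨A, j'⟩ = ⟨j', c A⟩ := by simp only [φ, if_pos hjc']
        rw [e, e'] at heq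
        exact congrArg Sigma.fst heq
      · exfalso
        by_cases hins : insert j' ((c A).erase (i0 A)) ∈ W
        · have e' : φ ⟨A, j'⟩ = ⟨j', insert j' ((c A).erase (i0 A))⟩ := by
            simp only [φ, if_neg hjc', if_pos hins]
          rw [e, e'] at heq
          have h := congrArg Sigma.fst heq
          simp only at h
          exact hjc' (h ▸ hjc)
        · have e' : φ ⟨A, j'⟩ = ⟨i0 A, insert j' (c A)⟩ := by
            simp only [φ, if_neg hjc', if_neg hins]
          rw [e, e'] at heq
          have h : c A = insert j' (c A) := by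
            have := (Sigma.mk.inj_iff.mp heq).2
            exact eq_of_heq this
          exact hjc' (by rw [h]; exact mem_insert_self _ _)
    · by_cases hins : insert j ((c A).erase (i0 A)) ∈ W
      · have e : φ ⟨A, j⟩ = ⟨j, insert j ((c A).erase (i0 A))⟩ := by
          simp only [φ, if_neg hjc, if_pos hins]
        by_cases hjc' : j' ∈ c A
        · exfalso
          have e' : φ ⟨A, j'⟩ = ⟨j', c A⟩ := by simp only [φ, if_pos hjc']
          rw [e, e'] at heq
          have h := congrArg Sigma.fst heq
          simp only at h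
          exact hjc (h ▸ hjc')
        · by_cases hins' : insert j' ((c A).erase (i0 A)) ∈ W
          · have e' : φ ⟨A, j'⟩ = ⟨j', insert j' ((c A).erase (i0 A))⟩ := by
              simp only [φ, if_neg hjc', if_pos hins']
            rw [e, e'] at heq
            exact congrArg Sigma.fst heq
          · exfalso
            have e' : φ ⟨A, j'⟩ = ⟨i0 A, insert j' (c A)⟩ := by
              simp only [φ, if_neg hjc', if_neg hins']
            rw [e, e'] at heq
            have h := congrArg Sigma.fst heq
            simp only at h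
            exact hjc (h ▸ h3)
      · have e : φ ⟨A, j⟩ = ⟨i0 A, insert j (c A)⟩ := by
          simp only [φ, if_neg hjc, if_neg hins]
        by_cases hjc' : j' ∈ c A
        · exfalso
          have e' : φ ⟨A, j'⟩ = ⟨j', c A⟩ := by simp only [φ, if_pos hjc']
          rw [e, e'] at heq
          have h : insert j (c A) = c A := by
            have := (Sigma.mk.inj_iff.mp heq).2
            exact eq_of_heq this
          exact hjc (by rw [← h]; exact mem_insert_self _ _)
        · by_cases hins' : insert j' ((c A).erase (i0 A)) ∈ W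
          · exfalso
            have e' : φ ⟨A, j'⟩ = ⟨j', insert j' ((c A).erase (i0 A))⟩ := by
              simp only [φ, if_neg hjc', if_pos hins']
            rw [e, e'] at heq
            have h := congrArg Sigma.fst heq
            simp only at h
            exact hjc' (h ▸ h3)
          · have e' : φ ⟨A, j'⟩ = ⟨i0 A, insert j' (c A)⟩ := by
              simp only [φ, if_neg hjc', if_neg hins']
            rw [e, e'] at heq
            have h : insert j (c A) = insert j' (c A) := by
              have := (Sigma.mk.inj_iff.mp heq).2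
              exact eq_of_heq this
            have hmem : j ∈ insert j' (c A) := by rw [← h]; exact mem_insert_self _ _
            rw [mem_insert] at hmem
            exact hmem.resolve_right hjc
  have hcount : ∑ A ∈ M, (n - A.card) ≤ ∑ i : Fin n, (E i).card := by
    have h1 : (M.sigma (fun A => (univ \ A : Finset (Fin n)))).card ≤
        ((univ : Finset (Fin n)).sigma E).card := by
      refine Finset.card_le_card_of_injOn φ ?_ ?_
      · rintro ⟨A, j⟩ hp
        simp only [coe_sigma, Set.mem_sigma_iff, mem_coe, mem_sdiff, mem_univ, true_and] at hp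
        obtain ⟨p1, p2, p3, p4⟩ := hφ A hp.1 j hp.2
        simp only [coe_sigma, Set.mem_sigma_iff, mem_coe, mem_univ, true_and, E, mem_filter]
        exact ⟨p1, p2, p3⟩
      · rintro ⟨A, j⟩ hp ⟨A', j'⟩ hp' heq
        simp only [coe_sigma, Set.mem_sigma_iff, mem_coe, mem_sdiff, mem_univ, true_and] at hp hp'
        obtain ⟨rfl, rfl⟩ := hφinj A hp.1 j hp.2 A' hp'.1 j' hp'.2 heq
        rfl
    rw [card_sigma, card_sigma] at h1
    refine le_trans (le_of_eq ?_) h1
    apply sum_congr rfl
    intro A _
    rw [card_sdiff_of_subset (subset_univ A), card_univ, Fintype.card_fin]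
  -- degrees
  have hdeg : ∀ i, (F.filter (fun A => i ∈ A)).card =
      (W.filter (fun A => i ∈ A)).card + (M.filter (fun A => i ∈ A)).card := by
    intro i
    have h := (card_filter_add_card_filter_not (s := F.filter (fun A => i ∈ A))
      (fun C => ∃ A ∈ F, A ⊂ C)).symm
    rw [h, hW, hM, filter_filter, filter_filter, filter_filter, filter_filter]
    congr 2
    · ext C; simp only [mem_filter]; tauto
    · ext C; simp only [mem_filter]; tauto
  have hMsum : ∑ i : Fin n, (M.filter (fun A => i ∈ A)).card = ∑ A ∈ M, A.card := by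
    have := Finset.sum_card_bipartiteAbove_eq_sum_card_bipartiteBelow
      (s := (univ : Finset (Fin n))) (t := M) (fun i A => i ∈ A)
    simp only [bipartiteAbove, bipartiteBelow] at this
    rw [this]
    apply sum_congr rfl
    intro A _
    congr 1
    ext x; simp
  have hMne : 0 < ∑ A ∈ M, A.card := by
    have hFne : F.Nonempty := ⟨_, hF.2.1⟩
    obtain ⟨A, hA, hmin⟩ := Finset.exists_min_image F (fun C => C.card) hFne
    have hAM : A ∈ M := by
      rw [hM, mem_filter]
      refine ⟨hA, ?_⟩
      rintro ⟨B, hB, hBA⟩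
      have := hmin B hB
      have h2 := card_lt_card hBA
      omega
    have : A.card ≤ ∑ A ∈ M, A.card := Finset.single_le_sum (f := fun A => A.card)
      (fun _ _ => Nat.zero_le _) hAM
    have h3 : 0 < A.card := card_pos.mpr (hF.1 A hA)
    omega
  by_contra hcon
  push Not at hcon
  have hle : ∑ i : Fin n, 2 * (F.filter (fun A => i ∈ A)).card ≤ ∑ _i : Fin n, F.card :=
    sum_le_sum (fun i _ => hcon i)
  have hl : ∑ i : Fin n, 2 * (F.filter (fun A => i ∈ A)).card =
      n * W.card + ∑ i : Fin n, (E i).card + 2 * ∑ A ∈ M, A.card := by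
    calc ∑ i : Fin n, 2 * (F.filter (fun A => i ∈ A)).card
        = ∑ i : Fin n, ((W.card + (E i).card) + 2 * (M.filter (fun A => i ∈ A)).card) := by
          apply sum_congr rfl
          intro i _
          rw [hdeg i, mul_add, hE i]
      _ = _ := by
          rw [sum_add_distrib, sum_add_distrib, ← mul_sum, hMsum]
          simp
  have hr : ∑ _i : Fin n, F.card = n * W.card + n * M.card := by
    rw [sum_const, card_univ, Fintype.card_fin, smul_eq_mul, hFcard]
    ring
  have hs : ∑ A ∈ M, (n - A.card) + ∑ A ∈ M, A.card = n * M.card := by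
    rw [← sum_add_distrib]
    rw [mul_comm, ← smul_eq_mul, ← sum_const]
    apply sum_congr rfl
    intro A _
    have : A.card ≤ n := by
      have := card_le_univ A
      rwa [Fintype.card_fin] at this
    omega
  rw [hl, hr] at hle
  omega

end Pool.Agent.Results.MP_5b71d7_co.TwoDense
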